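import Mathlib
import Pool.Agent.Run7.h257.Final

/-!
For every prime `L` the set `𝒩_L` is infinite.
-/

namespace Pool.Agent.Results.MP_61f5b2_nt.AllInfinite

/-- `n` is `L`-smooth: every prime factor of `n` is at most `L`. -/
def Smooth (L n : ℕ) : Prop := ∀ q : ℕ, q.Prime → q ∣ n → q ≤ L

/-- The set `𝒩_L`: the primes `p` for which there are integers `c ≥ 1` with `p ∤ c` and `a, b ≥ 1`
with `a b` an `L`-smooth number, such that `p c = a + b` or `p c = a - b`. -/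
def NL (L : ℕ) : Set ℕ :=
  {p : ℕ | p.Prime ∧ ∃ c : ℕ, 1 ≤ c ∧ ¬ p ∣ c ∧ ∃ a b : ℕ, 1 ≤ a ∧ 1 ≤ b ∧ Smooth L (a * b) ∧
    ((p : ℤ) * c = a + b ∨ (p : ℤ) * c = a - b)}

/-- For every prime `L` the set `𝒩_L` is infinite. -/
theorem result (L : ℕ) (hL : L.Prime) : (NL L).Infinite := by
  rw [Set.infinite_iff_exists_gt]
  intro N
  have h1 := Run7.h257.not_wief (max N 2)
  unfold Run7.h257.Wief at h1
  push Not at h1
  obtain ⟨p, hp, hlt, hn⟩ := h1
  have hpN : N < p := lt_of_le_of_lt (le_max_left _ _) hlt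
  have hp2 : 2 < p := lt_of_le_of_lt (le_max_right _ _) hlt
  refine ⟨p, ⟨hp, ?_⟩, hpN⟩
  have hcop : Nat.Coprime 2 p := by
    rw [Nat.coprime_primes Nat.prime_two hp]; omega
  have hf : p ∣ 2 ^ (p - 1) - 1 := by
    have := Nat.ModEq.pow_totient hcop
    rw [Nat.totient_prime hp] at this
    exact (Nat.modEq_iff_dvd' (Nat.one_le_two_pow)).1 this.symm
  obtain ⟨c, hc⟩ := hf
  have hpow : 2 ^ 1 ≤ 2 ^ (p - 1) := Nat.pow_le_pow_right (by norm_num) (by omega)
  have hc1 : 1 ≤ c := by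
    rcases Nat.eq_zero_or_pos c with h0 | h0
    · subst h0; simp at hc; omega
    · exact h0
  refine ⟨c, hc1, ?_, 2 ^ (p - 1), 1, by omega, le_rfl, ?_, Or.inr ?_⟩
  · rintro ⟨d, rfl⟩
    exact hn ⟨d, by rw [hc]; ring⟩
  · intro q hq hd
    rw [mul_one] at hd
    have := (Nat.prime_dvd_prime_iff_eq hq Nat.prime_two).1 (hq.dvd_of_dvd_pow hd)
    rw [this]; exact hL.two_le
  · have : 2 ^ (p - 1) = p * c + 1 := by omega
    push_cast [this]
    ring

end Pool.Agent.Results.MP_61f5b2_nt.AllInfinite
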